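import Pool.Agent.TH289.L.Q3

/-!
# Quasi-open extensions of nonwandering homeomorphisms with residually many finite fibres
-/

set_option autoImplicit false

open Set Filter Topology
open scoped Manifold ContDiff

namespace Pool.Agent.Q184.AN

open Pool.Agent.H721R2 Pool.Agent.H789R2.AN Pool.Agent.TH289 Pool.Agent.TH289.L

/-- `g` has no wandering points. -/
def Nonwandering {Y : Type*} [TopologicalSpace Y] (g : Y ≃ₜ Y) : Prop :=
  ∀ V : Set Y, IsOpen V → V.Nonempty → ∃ m : ℕ, 1 ≤ m ∧ (g^[m] '' V ∩ V).Nonempty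

/-- In a compact Hausdorff space without wandering points, every nonempty open set contains a point
of a given residual set that returns infinitely often. -/
theorem exists_rec_residual {Y : Type*} [TopologicalSpace Y] [CompactSpace Y] [T2Space Y]
    {g : Y ≃ₜ Y} (hg : Nonwandering g) {S : Set Y} (hS : S ∈ residual Y)
    {V : Set Y} (hV : IsOpen V) (hne : V.Nonempty) :
    ∃ y ∈ V ∩ S, ∃ᶠ n : ℕ in atTop, g^[n] y ∈ V := by
  -- the set of points which return after time `N` or lie outside the closure of `V`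
  have hres : ∀ N : ℕ, (V ∩ ⋃ n ∈ Ici N, g^[n] ⁻¹' V) ∪ (closure V)ᶜ ∈ residual Y := by
    intro N
    have hopen : IsOpen ((V ∩ ⋃ n ∈ Ici N, g^[n] ⁻¹' V) ∪ (closure V)ᶜ) := by
      refine (hV.inter ?_).union isClosed_closure.isOpen_compl
      exact isOpen_biUnion fun n _ => hV.preimage (g.continuous.iterate n)
    refine residual_of_dense_open hopen ?_
    rw [dense_iff_inter_open]
    intro U hU hUn
    by_cases h : (U ∩ V).Nonempty
    · have hUV : IsOpen (U ∩ V) := hU.inter hV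
      obtain ⟨k, hk, _, ⟨x, hx, rfl⟩, hx'⟩ := Pool.Agent.H576R3.CF.nw_pow g g.continuous
        (fun W hW hWn => hg W hW hWn) (N + 1) (by omega) (U ∩ V) hUV h
      refine ⟨x, hx.1, Or.inl ⟨hx.2, ?_⟩⟩
      rw [mem_iUnion₂]
      refine ⟨(N + 1) * k, ?_, hx'.2⟩
      rw [mem_Ici]
      calc N ≤ (N + 1) * 1 := by omega
        _ ≤ (N + 1) * k := Nat.mul_le_mul_left _ hk
    · obtain ⟨u, hu⟩ := hUn
      refine ⟨u, hu, Or.inr fun hcl => ?_⟩
      obtain ⟨w, hw⟩ := mem_closure_iff.mp hcl U hU hu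
      exact h ⟨w, hw⟩
  have hall : (⋂ N : ℕ, ((V ∩ ⋃ n ∈ Ici N, g^[n] ⁻¹' V) ∪ (closure V)ᶜ)) ∩ S ∈ residual Y :=
    inter_mem (countable_iInter_mem.mpr hres) hS
  have hd := dense_of_mem_residual hall
  obtain ⟨y, hyV, hy, hyS⟩ := hd.inter_open_nonempty V hV hne
  refine ⟨y, ⟨hyV, hyS⟩, ?_⟩
  rw [frequently_atTop]
  intro N
  rcases mem_iInter.mp hy N with h | h
  · obtain ⟨n, hn, hn'⟩ := mem_iUnion₂.mp h.2
    exact ⟨n, hn, hn'⟩
  · exact absurd (subset_closure hyV) h

/-- Quasi-open extensions of nonwandering homeomorphisms with residually many finite fibres are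
nonwandering. No continuity of `h` is needed. -/
theorem nw_of_residual {X Y : Type*} [TopologicalSpace X] [TopologicalSpace Y] [CompactSpace Y]
    [T2Space Y] {f : X ≃ₜ X} {g : Y ≃ₜ Y} {h : X → Y} (hfg : ∀ x, h (f x) = g (h x))
    (hint : ∀ W : Set X, IsOpen W → W.Nonempty → (interior (h '' W)).Nonempty)
    (hfin : {y | (h ⁻¹' {y}).Finite} ∈ residual Y) (hg : Nonwandering g) : Nonwandering f := by
  intro W hW hne
  by_contra hcon
  push Not at hcon
  have hwand : ∀ m : ℕ, 1 ≤ m → Disjoint (f^[m] '' W) W := fun m hm =>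
    Set.disjoint_iff_inter_eq_empty.mpr (hcon m hm)
  obtain ⟨y, ⟨-, hyS⟩, hrec⟩ := exists_rec_residual hg hfin isOpen_interior (hint W hW hne)
  exact fib_infinite hfg hwand (hrec.mono fun n hn => interior_subset hn) hyS

end Pool.Agent.Q184.AN
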